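import Pool.Agent.Helper35_XQ.Stmt
import Pool.Agent.Helper38_KL.HKa

/-!
Squad XQ, part GI, module LOA: bounds from below, from one step to blocks.
-/

set_option autoImplicit false
set_option linter.unusedSimpArgs false

namespace Pool.Agent.XQ.GI.H26

open MeasureTheory Complex Filter Topology Pool.Agent.H62T Pool.Agent.H60K
open scoped ENNReal NNReal

/-- basic properties of a family of kernels with labels -/
structure KK (a : ℝ) (k : Lb → ℂ → ℂ → ℝ) : Prop where
  pos : 0 < a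
  meas : ∀ f, Measurable (fun p : ℂ × ℂ => k f p.1 p.2)
  nn : ∀ f z y, 0 ≤ k f z y
  sum : ∀ z y, ∑ f, k f z y = G a (z - y)

/-- the operator of a family of kernels with labels -/
noncomputable def opK (k : Lb → ℂ → ℂ → ℝ) (φ : Wd → ℂ → ℝ) (w : Wd) (z : ℂ) : ℝ :=
  ∑ f : Lb, ∫ y, k f z y * φ (f w) y

lemma G_le {a : ℝ} (ha : 0 < a) (z : ℂ) : G a z ≤ 1 / (4 * Real.pi * a) := by
  unfold G
  have h1 : Real.exp (-(‖z‖ ^ 2) / (4 * a)) ≤ 1 := by
    rw [Real.exp_le_one_iff]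
    have : 0 ≤ ‖z‖ ^ 2 / (4 * a) := by positivity
    have e : -(‖z‖ ^ 2) / (4 * a) = -(‖z‖ ^ 2 / (4 * a)) := by ring
    linarith [e]
  gcongr

lemma G_measz (a : ℝ) : Measurable (fun z : ℂ => G a z) := by
  unfold G
  fun_prop

variable {a : ℝ} {k : Lb → ℂ → ℂ → ℝ}

lemma KK.le (hk : KK a k) (f : Lb) (z y : ℂ) : k f z y ≤ G a (z - y) := by
  rw [← hk.sum z y]
  exact Finset.single_le_sum (fun g _ => hk.nn g z y) (Finset.mem_univ f)

lemma KK.measr (hk : KK a k) (f : Lb) (z : ℂ) : Measurable (fun y => k f z y) :=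
  (hk.meas f).comp (measurable_const.prodMk measurable_id)

lemma KK.measl (hk : KK a k) (f : Lb) (y : ℂ) : Measurable (fun z => k f z y) :=
  (hk.meas f).comp (measurable_id.prodMk measurable_const)

lemma KK.intg (hk : KK a k) (f : Lb) (z : ℂ) {ψ : ℂ → ℝ} (hψ : Measurable ψ) {C : ℝ}
    (hC : ∀ y, |ψ y| ≤ C) : Integrable (fun y => k f z y * ψ y) := by
  refine ((H38KL.G_intg hk.pos z).const_mul C).mono'
    (((hk.measr f z).mul hψ).aestronglyMeasurable) (Eventually.of_forall fun y => ?_)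
  rw [Real.norm_eq_abs, abs_mul, abs_of_nonneg (hk.nn f z y), mul_comm C]
  have h1 := hk.le f z y
  have h2 := (H38KL.G_pos hk.pos (z - y)).le
  exact mul_le_mul h1 (hC y) (abs_nonneg _) h2

lemma KK.intg1 (hk : KK a k) (f : Lb) (z : ℂ) : Integrable (fun y => k f z y) := by
  have := hk.intg f z (ψ := fun _ => 1) measurable_const (C := 1) (by simp)
  simpa using this

lemma KK.sum_int (hk : KK a k) (z : ℂ) : ∑ f : Lb, ∫ y, k f z y = 1 := by
  rw [← integral_finsetSum _ (fun f _ => hk.intg1 f z)]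
  simp_rw [hk.sum]
  exact H38KL.G_int_one hk.pos z

lemma KK.mono (hk : KK a k) {φ φ' : Wd → ℂ → ℝ} (hφ : ∀ v, Measurable (φ v))
    (hφ' : ∀ v, Measurable (φ' v)) {C C' : ℝ} (hC : ∀ v y, |φ v y| ≤ C)
    (hC' : ∀ v y, |φ' v y| ≤ C') (h : ∀ v y, φ v y ≤ φ' v y) (w : Wd) (z : ℂ) :
    opK k φ w z ≤ opK k φ' w z := by
  refine Finset.sum_le_sum fun f _ => ?_
  refine integral_mono (hk.intg f z (hφ _) (hC _)) (hk.intg f z (hφ' _) (hC' _)) fun y => ?_
  exact mul_le_mul_of_nonneg_left (h _ y) (hk.nn f z y)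

lemma KK.sub_const (hk : KK a k) {φ : Wd → ℂ → ℝ} (hφ : ∀ v, Measurable (φ v))
    {C : ℝ} (hC : ∀ v y, |φ v y| ≤ C) (c : ℝ) (w : Wd) (z : ℂ) :
    opK k (fun v y => φ v y - c) w z = opK k φ w z - c := by
  unfold opK
  have h1 : ∀ f : Lb, ∫ y, k f z y * (φ (f w) y - c)
      = (∫ y, k f z y * φ (f w) y) - (∫ y, k f z y) * c := by
    intro f
    have e : ∀ y, k f z y * (φ (f w) y - c) = k f z y * φ (f w) y - k f z y * c := by
      intro y; ring
    simp_rw [e]
    rw [integral_sub (hk.intg f z (hφ _) (hC _)) ((hk.intg1 f z).mul_const c),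
      integral_mul_const]
  simp_rw [h1]
  rw [Finset.sum_sub_distrib, ← Finset.sum_mul, hk.sum_int, one_mul]

lemma KK.measz (hk : KK a k) {φ : Wd → ℂ → ℝ} (hφ : ∀ v, Measurable (φ v)) (w : Wd) :
    Measurable (fun z => opK k φ w z) := by
  unfold opK
  refine Finset.measurable_sum _ fun f _ => ?_
  have h : StronglyMeasurable (fun p : ℂ × ℂ => k f p.1 p.2 * φ (f w) p.2) :=
    ((hk.meas f).mul ((hφ (f w)).comp measurable_snd)).stronglyMeasurable
  exact (h.integral_prod_right).measurable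

lemma KK.bound (hk : KK a k) {φ : Wd → ℂ → ℝ} (hφ : ∀ v, Measurable (φ v))
    {C : ℝ} (hC : ∀ v y, |φ v y| ≤ C) (w : Wd) (z : ℂ) : |opK k φ w z| ≤ C := by
  have hone : opK k (fun _ _ => (0 : ℝ)) w z = 0 := by
    unfold opK
    simp
  have hc : ∀ c : ℝ, opK k (fun _ _ => c) w z = c := by
    intro c
    have := hk.sub_const (φ := fun _ _ => 0) (fun _ => measurable_const) (C := 0)
      (by simp) (-c) w z
    rw [hone] at this
    simpa using this
  rw [abs_le]
  constructor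
  · have := hk.mono (φ := fun _ _ => -C) (φ' := φ) (fun _ => measurable_const) hφ
      (C := |C|) (C' := C) (fun _ _ => by rw [abs_neg]) hC
      (fun v y => (abs_le.mp (hC v y)).1) w z
    rwa [hc] at this
  · have := hk.mono (φ := φ) (φ' := fun _ _ => C) hφ (fun _ => measurable_const)
      (C := C) (C' := |C|) hC (fun _ _ => le_refl _)
      (fun v y => (abs_le.mp (hC v y)).2) w z
    rwa [hc] at this

lemma KK.nonneg (hk : KK a k) {φ : Wd → ℂ → ℝ} (h : ∀ v y, 0 ≤ φ v y) (w : Wd) (z : ℂ) :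
    0 ≤ opK k φ w z :=
  Finset.sum_nonneg fun f _ => integral_nonneg fun y => mul_nonneg (hk.nn f z y) (h _ y)

/-! ### Composition -/

/-- the composed kernel -/
noncomputable def cK (k : Lb → ℂ → ℂ → ℝ) (f : Lb) (z y : ℂ) : ℝ :=
  ∑ f₁ : Lb, ∑ f₂ : Lb, if f = (fun w => f₂ (f₁ w)) then ∫ ζ, k f₁ z ζ * k f₂ ζ y else 0

lemma KK.intg2 (hk : KK a k) (f₁ f₂ : Lb) (z : ℂ) {ψ : ℂ → ℝ} (hψ : Measurable ψ) {C : ℝ}
    (hC : ∀ y, |ψ y| ≤ C) :
    Integrable (fun p : ℂ × ℂ => k f₁ z p.1 * (k f₂ p.1 p.2 * ψ p.2)) := by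
  have hm : Measurable (fun p : ℂ × ℂ => k f₁ z p.1 * (k f₂ p.1 p.2 * ψ p.2)) :=
    ((hk.measr f₁ z).comp measurable_fst).mul ((hk.meas f₂).mul (hψ.comp measurable_snd))
  have hC0 : 0 ≤ C := (abs_nonneg _).trans (hC 0)
  rw [Measure.volume_eq_prod, integrable_prod_iff hm.aestronglyMeasurable]
  refine ⟨Eventually.of_forall fun ζ => (hk.intg f₂ ζ hψ hC).const_mul (k f₁ z ζ), ?_⟩
  refine ((hk.intg1 f₁ z).mul_const C).mono' ?_ (Eventually.of_forall fun ζ => ?_)
  · exact hm.norm.stronglyMeasurable.integral_prod_right.aestronglyMeasurable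
  · rw [Real.norm_eq_abs, abs_of_nonneg (integral_nonneg fun _ => norm_nonneg _)]
    have h1 : ∀ y, ‖k f₁ z ζ * (k f₂ ζ y * ψ y)‖ ≤ k f₁ z ζ * (G a (ζ - y) * C) := by
      intro y
      rw [Real.norm_eq_abs, abs_mul, abs_of_nonneg (hk.nn f₁ z ζ), abs_mul,
        abs_of_nonneg (hk.nn f₂ ζ y)]
      refine mul_le_mul_of_nonneg_left ?_ (hk.nn f₁ z ζ)
      exact mul_le_mul (hk.le f₂ ζ y) (hC y) (abs_nonneg _) (H38KL.G_pos hk.pos _).le
    calc ∫ y, ‖k f₁ z ζ * (k f₂ ζ y * ψ y)‖ ≤ ∫ y, k f₁ z ζ * (G a (ζ - y) * C) := by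
          refine integral_mono_of_nonneg (Eventually.of_forall fun _ => norm_nonneg _) ?_
            (Eventually.of_forall h1)
          exact ((H38KL.G_intg hk.pos ζ).mul_const C).const_mul _
      _ = k f₁ z ζ * C := by
          rw [integral_const_mul, integral_mul_const, H38KL.G_int_one hk.pos ζ, one_mul]

lemma KK.comp (hk : KK a k) {φ : Wd → ℂ → ℝ} (hφ : ∀ v, Measurable (φ v))
    {C : ℝ} (hC : ∀ v y, |φ v y| ≤ C) (w : Wd) (z : ℂ) :
    opK (cK k) φ w z = opK k (fun v y => opK k φ v y) w z := by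
  have hin : ∀ (f₁ f₂ : Lb) (v : Wd),
      Integrable (fun y => (∫ ζ, k f₁ z ζ * k f₂ ζ y) * φ v y) ∧
      ∫ y, (∫ ζ, k f₁ z ζ * k f₂ ζ y) * φ v y = ∫ ζ, k f₁ z ζ * ∫ y, k f₂ ζ y * φ v y := by
    intro f₁ f₂ v
    have hI := hk.intg2 f₁ f₂ z (hφ v) (hC v)
    have e1 : ∀ y, (∫ ζ, k f₁ z ζ * k f₂ ζ y) * φ v y
        = ∫ ζ, k f₁ z ζ * (k f₂ ζ y * φ v y) := by
      intro y
      rw [← integral_mul_const]
      refine integral_congr_ae (Eventually.of_forall fun ζ => ?_)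
      ring
    have e2 : ∀ ζ, k f₁ z ζ * ∫ y, k f₂ ζ y * φ v y
        = ∫ y, k f₁ z ζ * (k f₂ ζ y * φ v y) := by
      intro ζ
      rw [integral_const_mul]
    simp_rw [e1, e2]
    rw [Measure.volume_eq_prod] at hI
    refine ⟨hI.integral_prod_right, ?_⟩
    exact integral_integral_swap (f := fun ζ y => k f₁ z ζ * (k f₂ ζ y * φ v y)) hI |>.symm
  have h1 : opK (cK k) φ w z = ∑ f : Lb, ∑ f₁ : Lb, ∑ f₂ : Lb,
      if f = (fun w => f₂ (f₁ w)) then ∫ y, (∫ ζ, k f₁ z ζ * k f₂ ζ y) * φ (f w) y else 0 := by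
    unfold opK cK
    refine Finset.sum_congr rfl fun f _ => ?_
    simp_rw [Finset.sum_mul]
    rw [integral_finsetSum]
    · refine Finset.sum_congr rfl fun f₁ _ => ?_
      rw [integral_finsetSum]
      · refine Finset.sum_congr rfl fun f₂ _ => ?_
        split_ifs with hf
        · rfl
        · simp
      · intro f₂ _
        split_ifs with hf
        · exact (hin f₁ f₂ (f w)).1
        · simp
    · intro f₁ _
      refine integrable_finsetSum _ fun f₂ _ => ?_
      split_ifs with hf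
      · exact (hin f₁ f₂ (f w)).1
      · simp
  rw [h1]
  rw [Finset.sum_comm]
  unfold opK
  refine Finset.sum_congr rfl fun f₁ _ => ?_
  rw [Finset.sum_comm]
  have h2 : ∀ f₂ : Lb, (∑ f : Lb, if f = (fun w => f₂ (f₁ w)) then
      ∫ y, (∫ ζ, k f₁ z ζ * k f₂ ζ y) * φ (f w) y else 0)
      = ∫ ζ, k f₁ z ζ * ∫ y, k f₂ ζ y * φ (f₂ (f₁ w)) y := by
    intro f₂
    rw [Finset.sum_ite_eq' Finset.univ (fun w => f₂ (f₁ w))
      (fun f : Lb => ∫ y, (∫ ζ, k f₁ z ζ * k f₂ ζ y) * φ (f w) y)]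
    rw [if_pos (Finset.mem_univ _)]
    exact (hin f₁ f₂ _).2
  simp_rw [h2]
  have h3 : ∀ ζ, k f₁ z ζ * ∑ f₂ : Lb, ∫ y, k f₂ ζ y * φ (f₂ (f₁ w)) y
      = ∑ f₂ : Lb, k f₁ z ζ * ∫ y, k f₂ ζ y * φ (f₂ (f₁ w)) y := by
    intro ζ
    rw [Finset.mul_sum]
  simp_rw [h3]
  rw [integral_finsetSum]
  intro f₂ _
  have hm : Measurable (fun ζ => ∫ y, k f₂ ζ y * φ (f₂ (f₁ w)) y) := by
    have h : StronglyMeasurable (fun p : ℂ × ℂ => k f₂ p.1 p.2 * φ (f₂ (f₁ w)) p.2) :=
      ((hk.meas f₂).mul ((hφ _).comp measurable_snd)).stronglyMeasurable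
    exact (h.integral_prod_right).measurable
  refine hk.intg f₁ z hm (C := C) fun ζ => ?_
  have hC0 : 0 ≤ C := (abs_nonneg _).trans (hC w 0)
  rw [← Real.norm_eq_abs]
  calc ‖∫ y, k f₂ ζ y * φ (f₂ (f₁ w)) y‖ ≤ ∫ y, G a (ζ - y) * C := by
        refine norm_integral_le_of_norm_le ((H38KL.G_intg hk.pos ζ).mul_const C)
          (Eventually.of_forall fun y => ?_)
        rw [Real.norm_eq_abs, abs_mul, abs_of_nonneg (hk.nn f₂ ζ y)]
        exact mul_le_mul (hk.le f₂ ζ y) (hC _ y) (abs_nonneg _) (H38KL.G_pos hk.pos _).le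
    _ = C := by rw [integral_mul_const, H38KL.G_int_one hk.pos ζ, one_mul]


lemma KK.readc (hk : KK a k) (x : ℂ) (w : Wd) (z : ℂ) :
    (∑ f : Lb, if f w = em then cK k f z x else 0)
      = opK k (fun v y => ∑ f : Lb, if f v = em then k f y x else 0) w z := by
  have hI : ∀ f₁ f₂ : Lb, Integrable (fun ζ => k f₁ z ζ * k f₂ ζ x) := by
    intro f₁ f₂
    refine hk.intg f₁ z (hk.measl f₂ x) (C := 1 / (4 * Real.pi * a)) fun y => ?_
    rw [abs_of_nonneg (hk.nn f₂ y x)]
    exact (hk.le f₂ y x).trans (G_le hk.pos _)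
  have h1 : (∑ f : Lb, if f w = em then cK k f z x else 0) = ∑ f : Lb, ∑ f₁ : Lb, ∑ f₂ : Lb,
      if f = (fun w => f₂ (f₁ w)) then (if f w = em then ∫ ζ, k f₁ z ζ * k f₂ ζ x else 0)
        else 0 := by
    refine Finset.sum_congr rfl fun f _ => ?_
    unfold cK
    by_cases hf : f w = em
    · simp only [if_pos hf]
    · simp only [if_neg hf, ite_self, Finset.sum_const_zero]
  rw [h1, Finset.sum_comm]
  unfold opK
  refine Finset.sum_congr rfl fun f₁ _ => ?_
  rw [Finset.sum_comm]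
  have h2 : ∀ f₂ : Lb, (∑ f : Lb, if f = (fun w => f₂ (f₁ w)) then
      (if f w = em then ∫ ζ, k f₁ z ζ * k f₂ ζ x else 0) else 0)
      = if f₂ (f₁ w) = em then ∫ ζ, k f₁ z ζ * k f₂ ζ x else 0 := by
    intro f₂
    rw [Finset.sum_ite_eq' Finset.univ (fun w => f₂ (f₁ w))
      (fun f : Lb => if f w = em then ∫ ζ, k f₁ z ζ * k f₂ ζ x else 0)]
    rw [if_pos (Finset.mem_univ _)]
  simp_rw [h2]
  have h3 : ∀ ζ, k f₁ z ζ * (∑ f₂ : Lb, if f₂ (f₁ w) = em then k f₂ ζ x else 0)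
      = ∑ f₂ : Lb, if f₂ (f₁ w) = em then k f₁ z ζ * k f₂ ζ x else 0 := by
    intro ζ
    rw [Finset.mul_sum]
    refine Finset.sum_congr rfl fun f₂ _ => ?_
    split_ifs <;> simp
  simp_rw [h3]
  rw [integral_finsetSum]
  · refine Finset.sum_congr rfl fun f₂ _ => ?_
    split_ifs with hf
    · rfl
    · simp
  · intro f₂ _
    split_ifs with hf
    · exact hI f₁ f₂
    · simp

/-! ### The kernels -/

lemma kF (hkf : KfbStatement) (u : Fin 3 → ℂ) (h : Fin 3 → ℝ) (m : ℕ) {t : ℝ} (ht : 0 < t) :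
    KK t (fun f x y => KF u h m f t x y) where
  pos := ht
  meas f := ((hkf u h m).1 f).comp
    (measurable_const.prodMk (measurable_fst.prodMk measurable_snd))
  nn f z y := ((hkf u h m).2 t z y ht).1 f
  sum z y := ((hkf u h m).2 t z y ht).2.2.1

lemma kO (ho : OrdStatement) (u : Fin 3 → ℂ) (h : Fin 3 → ℝ) (hu : ∀ s, ‖u s‖ = 1) {t : ℝ}
    (ht : 0 < t) : KK t (fun f x y => KO u h f t x y) where
  pos := ht
  meas f := ((ho u h hu).1 f).comp
    (measurable_const.prodMk (measurable_fst.prodMk measurable_snd))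
  nn f z y := ((ho u h hu).2 t z y ht).2.1 f
  sum z y := ((ho u h hu).2 t z y ht).2.2.2.1

lemma KF_succ (u : Fin 3 → ℂ) (h : Fin 3 → ℝ) (m : ℕ) (f : Lb) (t : ℝ) (x y : ℂ) :
    KF u h (m + 1) f t x y = cK (fun f x y => KF u h m f (t / 2) x y) f x y := rfl

lemma opK_KF_succ (hkf : KfbStatement) (u : Fin 3 → ℂ) (h : Fin 3 → ℝ) (m : ℕ) {t : ℝ}
    (ht : 0 < t) {φ : Wd → ℂ → ℝ} (hφ : ∀ v, Measurable (φ v))
    {C : ℝ} (hC : ∀ v y, |φ v y| ≤ C) (w : Wd) (z : ℂ) :
    opK (fun f x y => KF u h (m + 1) f t x y) φ w z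
      = opK (fun f x y => KF u h m f (t / 2) x y)
        (fun v y => opK (fun f x y => KF u h m f (t / 2) x y) φ v y) w z := by
  rw [← (kF hkf u h m (half_pos ht)).comp hφ hC]
  rfl

lemma opK_KF_zero (hkf : KfbStatement) (u : Fin 3 → ℂ) (h : Fin 3 → ℝ) {t : ℝ}
    (ht : 0 < t) {φ : Wd → ℂ → ℝ} (hφ : ∀ v, Measurable (φ v))
    {C : ℝ} (hC : ∀ v y, |φ v y| ≤ C) (w : Wd) (z : ℂ) :
    opK (fun f x y => KF u h 0 f t x y) φ w z
      = ∫ y, G t (z - y) * φ (rd (lb u h y) (rd (lb u h z) w)) y := by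
  have hk := kF hkf u h 0 ht
  unfold opK
  rw [← integral_finsetSum _ (fun f _ => hk.intg f z (hφ _) (hC _))]
  refine integral_congr_ae (Eventually.of_forall fun y => ?_)
  simp only [KF]
  rw [Finset.sum_eq_single (fun w => rd (lb u h y) (rd (lb u h z) w))]
  · rw [if_pos rfl]
  · intro f _ hf
    rw [if_neg hf, zero_mul]
  · intro hf
    exact absurd (Finset.mem_univ _) hf

lemma read_zero (u : Fin 3 → ℂ) (h : Fin 3 → ℝ) (t : ℝ) (w : Wd) (z x : ℂ) :
    (∑ f : Lb, if f w = em then KF u h 0 f t z x else 0)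
      = if rd (lb u h x) (rd (lb u h z) w) = em then G t (z - x) else 0 := by
  rw [Finset.sum_eq_single (fun w => rd (lb u h x) (rd (lb u h z) w))]
  · simp only [KF, if_true]
  · intro f _ hf
    simp only [KF, if_neg hf, ite_self]
  · intro hf
    exact absurd (Finset.mem_univ _) hf

/-! ### Error terms -/

lemma exp_le_sq {y : ℝ} (hy : 0 < y) : Real.exp (-y) ≤ 2 / y ^ 2 := by
  have h1 : y ^ 2 / 2 ≤ Real.exp y := by
    have := Real.quadratic_le_exp_of_nonneg hy.le
    linarith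
  rw [Real.exp_neg, inv_eq_one_div, div_le_div_iff₀ (Real.exp_pos _) (by positivity)]
  linarith

lemma tend_err {c : ℝ} (hc : 0 < c) (K : ℝ) :
    Tendsto (fun m : ℕ => ((m : ℝ) + 1) * (K * 2 ^ m * Real.exp (-(c * 2 ^ m)))) atTop (𝓝 0) := by
  have h1 : Tendsto (fun m : ℕ => (|K| * (2 / c ^ 2)) * ((m : ℝ) ^ 1 / 2 ^ m + (m : ℝ) ^ 0 / 2 ^ m))
      atTop (𝓝 0) := by
    have := ((tendsto_pow_const_div_const_pow_of_one_lt 1 (one_lt_two (α := ℝ))).add
      (tendsto_pow_const_div_const_pow_of_one_lt 0 (one_lt_two (α := ℝ)))).const_mul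
        (|K| * (2 / c ^ 2))
    simpa using this
  refine squeeze_zero_norm (fun m => ?_) h1
  rw [Real.norm_eq_abs, abs_mul, abs_mul, abs_mul, abs_of_nonneg (by positivity : (0:ℝ) ≤ m + 1),
    abs_of_nonneg (by positivity : (0:ℝ) ≤ 2 ^ m), abs_of_nonneg (Real.exp_pos _).le]
  have h2 : Real.exp (-(c * 2 ^ m)) ≤ 2 / (c * 2 ^ m) ^ 2 := exp_le_sq (by positivity)
  have h3 : (0:ℝ) < 2 ^ m := by positivity
  calc ((m : ℝ) + 1) * (|K| * 2 ^ m * Real.exp (-(c * 2 ^ m)))
      ≤ ((m : ℝ) + 1) * (|K| * 2 ^ m * (2 / (c * 2 ^ m) ^ 2)) := by gcongr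
    _ = |K| * (2 / c ^ 2) * ((m : ℝ) ^ 1 / 2 ^ m + (m : ℝ) ^ 0 / 2 ^ m) := by
        field_simp

/-! ### LOA -/

section Main

variable {u : Fin 3 → ℂ} {h : Fin 3 → ℝ} {x : ℂ} {Ψ : Wd → ℝ → ℂ → ℝ} {K ε : ℝ}

lemma claim_m (hkf : KfbStatement)
    (hm : ∀ w, Measurable (fun p : ℝ × ℂ => Ψ w p.1 p.2))
    (hb : ∀ w s y, 0 < s → 0 ≤ Ψ w s y ∧ Ψ w s y ≤ K / s) (hK : 0 ≤ K)
    (h1 : ∀ w s τ z, 0 < s → 0 < τ → Ψ w (s + τ) z - K / s * Real.exp (-(ε ^ 2 / (4 * τ)))
      ≤ ∫ y, G τ (z - y) * Ψ (rd (lb u h y) (rd (lb u h z) w)) s y) (m : ℕ) :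
    ∀ (a s : ℝ) (w : Wd) (z : ℂ), 0 < a → 0 < s →
      Ψ w (s + a) z - K / s * 2 ^ m * Real.exp (-(ε ^ 2 / (4 * a) * 2 ^ m))
        ≤ opK (fun f x y => KF u h m f a x y) (fun v y => Ψ v s y) w z := by
  have hms : ∀ s v, Measurable (fun y => Ψ v s y) := fun s v =>
    (hm v).comp (measurable_const.prodMk measurable_id)
  have hab : ∀ s, 0 < s → ∀ v y, |Ψ v s y| ≤ K / s := fun s hs v y => by
    rw [abs_of_nonneg (hb v s y hs).1]
    exact (hb v s y hs).2
  induction m with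
  | zero =>
    intro a s w z ha hs
    rw [opK_KF_zero hkf u h ha (hms s) (hab s hs)]
    simpa using h1 w s a z hs ha
  | succ m ih =>
    intro a s w z ha hs
    have ha2 := half_pos ha
    have hk := kF hkf u h m ha2
    rw [opK_KF_succ hkf u h m ha (hms s) (hab s hs)]
    set e : ℝ := K / s * 2 ^ m * Real.exp (-(ε ^ 2 / (4 * (a / 2)) * 2 ^ m)) with he
    have hstep : opK (fun f x y => KF u h m f (a / 2) x y) (fun v y => Ψ v (s + a / 2) y) w z - e
        ≤ opK (fun f x y => KF u h m f (a / 2) x y)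
          (fun v y => opK (fun f x y => KF u h m f (a / 2) x y) (fun v y => Ψ v s y) v y) w z := by
      rw [← hk.sub_const (hms _) (hab _ (by positivity)) e]
      refine hk.mono (C := K / (s + a / 2) + |e|) (C' := K / s)
        (fun v => (hms _ v).sub_const e) (fun v => hk.measz (hms s) v)
        (fun v y => ?_) (fun v y => hk.bound (hms s) (hab s hs) v y)
        (fun v y => ih (a / 2) s v y ha2 hs) w z
      exact (abs_sub _ _).trans (add_le_add (hab _ (by positivity) v y) le_rfl)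
    have hih := ih (a / 2) (s + a / 2) w z ha2 (by positivity)
    have e1 : s + a / 2 + a / 2 = s + a := by ring
    rw [e1] at hih
    have hKs : K / (s + a / 2) ≤ K / s := by
      gcongr
      linarith
    have h5 : K / (s + a / 2) * 2 ^ m * Real.exp (-(ε ^ 2 / (4 * (a / 2)) * 2 ^ m)) ≤ e := by
      rw [he]
      gcongr
    have h6 : K / s * 2 ^ (m + 1) * Real.exp (-(ε ^ 2 / (4 * a) * 2 ^ (m + 1))) = 2 * e := by
      rw [he]
      have : ε ^ 2 / (4 * a) * 2 ^ (m + 1) = ε ^ 2 / (4 * (a / 2)) * 2 ^ m := by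
        field_simp
        ring
      rw [this]
      ring
    rw [h6]
    linarith

lemma first_m (hkf : KfbStatement)
    (hm : ∀ w, Measurable (fun p : ℝ × ℂ => Ψ w p.1 p.2))
    (hb : ∀ w s y, 0 < s → 0 ≤ Ψ w s y ∧ Ψ w s y ≤ K / s) (hK : 0 ≤ K)
    (h1 : ∀ w s τ z, 0 < s → 0 < τ → Ψ w (s + τ) z - K / s * Real.exp (-(ε ^ 2 / (4 * τ)))
      ≤ ∫ y, G τ (z - y) * Ψ (rd (lb u h y) (rd (lb u h z) w)) s y)
    (h2 : ∀ w τ z, 0 < τ → Ψ w τ z - K / τ * Real.exp (-(ε ^ 2 / (4 * τ)))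
      ≤ if rd (lb u h x) (rd (lb u h z) w) = em then G τ (z - x) else 0) (m : ℕ) :
    ∀ (a : ℝ) (w : Wd) (z : ℂ), 0 < a →
      Ψ w a z - ((m : ℝ) + 1) * (K / a * 2 ^ m * Real.exp (-(ε ^ 2 / (4 * a) * 2 ^ m)))
        ≤ ∑ f : Lb, if f w = em then KF u h m f a z x else 0 := by
  have hms : ∀ s v, Measurable (fun y => Ψ v s y) := fun s v =>
    (hm v).comp (measurable_const.prodMk measurable_id)
  have hab : ∀ s, 0 < s → ∀ v y, |Ψ v s y| ≤ K / s := fun s hs v y => by
    rw [abs_of_nonneg (hb v s y hs).1]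
    exact (hb v s y hs).2
  induction m with
  | zero =>
    intro a w z ha
    rw [read_zero]
    simpa using h2 w a z ha
  | succ m ih =>
    intro a w z ha
    have ha2 := half_pos ha
    have hk := kF hkf u h m ha2
    have hr := hk.readc x w z
    simp only [← KF_succ] at hr
    rw [hr]
    set e : ℝ := ((m : ℝ) + 1) * (K / (a / 2) * 2 ^ m *
      Real.exp (-(ε ^ 2 / (4 * (a / 2)) * 2 ^ m))) with he
    have hpm : ∀ v, Measurable (fun y => ∑ f : Lb, if f v = em then KF u h m f (a / 2) y x else 0) := by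
      intro v
      refine Finset.measurable_sum _ fun f _ => ?_
      split_ifs
      · exact hk.measl f x
      · exact measurable_const
    have hpb : ∀ v y, |∑ f : Lb, if f v = em then KF u h m f (a / 2) y x else 0|
        ≤ 1 / (4 * Real.pi * (a / 2)) := by
      intro v y
      rw [abs_of_nonneg (Finset.sum_nonneg fun f _ => by
        split_ifs
        · exact hk.nn f y x
        · exact le_refl _)]
      calc (∑ f : Lb, if f v = em then KF u h m f (a / 2) y x else 0)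
          ≤ ∑ f : Lb, KF u h m f (a / 2) y x := by
            refine Finset.sum_le_sum fun f _ => ?_
            split_ifs
            · exact le_refl _
            · exact hk.nn f y x
        _ = G (a / 2) (y - x) := hk.sum y x
        _ ≤ _ := G_le ha2 _
    have hstep : opK (fun f x y => KF u h m f (a / 2) x y) (fun v y => Ψ v (a / 2) y) w z - e
        ≤ opK (fun f x y => KF u h m f (a / 2) x y)
          (fun v y => ∑ f : Lb, if f v = em then KF u h m f (a / 2) y x else 0) w z := by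
      rw [← hk.sub_const (hms _) (hab _ ha2) e]
      refine hk.mono (C := K / (a / 2) + |e|) (C' := 1 / (4 * Real.pi * (a / 2)))
        (fun v => (hms _ v).sub_const e) hpm
        (fun v y => ?_) hpb (fun v y => ih (a / 2) v y ha2) w z
      exact (abs_sub _ _).trans (add_le_add (hab _ ha2 v y) le_rfl)
    have hc := claim_m (u := u) (h := h) hkf hm hb hK h1 m (a / 2) (a / 2) w z ha2 ha2
    rw [add_halves] at hc
    have h6 : (((m + 1 : ℕ) : ℝ) + 1) * (K / a * 2 ^ (m + 1) *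
        Real.exp (-(ε ^ 2 / (4 * a) * 2 ^ (m + 1))))
        = e + K / (a / 2) * 2 ^ m * Real.exp (-(ε ^ 2 / (4 * (a / 2)) * 2 ^ m)) := by
      rw [he]
      have : ε ^ 2 / (4 * a) * 2 ^ (m + 1) = ε ^ 2 / (4 * (a / 2)) * 2 ^ m := by
        field_simp
        ring
      rw [this]
      push_cast
      field_simp
      ring
    rw [h6]
    linarith

end Main

/-- limit of the operators -/
lemma tend_op (hkf : KfbStatement) (ho : OrdStatement) {u : Fin 3 → ℂ} {h : Fin 3 → ℝ}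
    (hu : ∀ s, ‖u s‖ = 1) {a : ℝ} (ha : 0 < a) {φ : Wd → ℂ → ℝ} (hφ : ∀ v, Measurable (φ v))
    {C : ℝ} (hC : ∀ v y, |φ v y| ≤ C) (w : Wd) (z : ℂ) :
    Tendsto (fun m => opK (fun f x y => KF u h m f a x y) φ w z) atTop
      (𝓝 (opK (fun f x y => KO u h f a x y) φ w z)) := by
  unfold opK
  refine tendsto_finsetSum _ fun f _ => ?_
  refine tendsto_integral_of_dominated_convergence (fun y => G a (z - y) * C) (fun m => ?_) ?_
    (fun m => Eventually.of_forall fun y => ?_) (Eventually.of_forall fun y => ?_)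
  · exact ((kF hkf u h m ha).intg f z (hφ _) (hC _)).aestronglyMeasurable
  · exact (H38KL.G_intg ha z).mul_const C
  · rw [Real.norm_eq_abs, abs_mul, abs_of_nonneg ((kF hkf u h m ha).nn f z y)]
    exact mul_le_mul ((kF hkf u h m ha).le f z y) (hC _ y) (abs_nonneg _) (H38KL.G_pos ha _).le
  · exact (((ho u h hu).2 a z y ha).1 f).mul_const _

/-- LOA -/
theorem loa (hkf : KfbStatement) (ho : OrdStatement) : LoaStatement := by
  intro u h hu x Ψ K ε hε hK hm hb h1 h2 a k w z ha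
  have hms : ∀ s v, Measurable (fun y => Ψ v s y) := fun s v =>
    (hm v).comp (measurable_const.prodMk measurable_id)
  have hab : ∀ s, 0 < s → ∀ v y, |Ψ v s y| ≤ K / s := fun s hs v y => by
    rw [abs_of_nonneg (hb v s y hs).1]
    exact (hb v s y hs).2
  have hk := kO ho u h hu ha
  have hc : 0 < ε ^ 2 / (4 * a) := by positivity
  -- one block
  have hop : ∀ s, 0 < s → ∀ w z, Ψ w (s + a) z
      ≤ opK (fun f x y => KO u h f a x y) (fun v y => Ψ v s y) w z := by
    intro s hs w z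
    have ht := tend_op (h := h) hkf ho hu ha (hms s) (hab s hs) w z
    have he := tend_err hc (K / s)
    refine le_of_tendsto_of_tendsto' (b := atTop) (f := fun m : ℕ => Ψ w (s + a) z -
      ((m : ℝ) + 1) * (K / s * 2 ^ m * Real.exp (-(ε ^ 2 / (4 * a) * 2 ^ m)))) ?_ ht fun m => ?_
    · simpa using he.const_sub (Ψ w (s + a) z)
    · have h3 := claim_m (u := u) (h := h) hkf hm hb hK h1 m a s w z ha hs
      have h4 : 0 ≤ K / s * 2 ^ m * Real.exp (-(ε ^ 2 / (4 * a) * 2 ^ m)) := by positivity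
      have h5 : (0:ℝ) ≤ m := by positivity
      nlinarith
  -- first block
  have hfirst : ∀ w z, Ψ w a z ≤ UO u h a 0 w z x := by
    intro w z
    have ht : Tendsto (fun m => ∑ f : Lb, if f w = em then KF u h m f a z x else 0) atTop
        (𝓝 (UO u h a 0 w z x)) := by
      unfold UO
      refine tendsto_finsetSum _ fun f _ => ?_
      split_ifs
      · exact ((ho u h hu).2 a z x ha).1 f
      · exact tendsto_const_nhds
    refine le_of_tendsto_of_tendsto' (b := atTop) (f := fun m : ℕ => Ψ w a z -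
      ((m : ℝ) + 1) * (K / a * 2 ^ m * Real.exp (-(ε ^ 2 / (4 * a) * 2 ^ m)))) ?_ ht fun m => ?_
    · simpa using (tend_err hc (K / a)).const_sub (Ψ w a z)
    · exact first_m (u := u) (h := h) hkf hm hb hK h1 h2 m a w z ha
  -- measurability and bound
  have hUO : ∀ k, (∀ v, Measurable (fun y => UO u h a k v y x)) ∧
      ∀ v y, |UO u h a k v y x| ≤ 1 / (4 * Real.pi * a) := by
    intro k
    induction k with
    | zero =>
      constructor
      · intro v
        unfold UO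
        refine Finset.measurable_sum _ fun f _ => ?_
        split_ifs
        · exact hk.measl f x
        · exact measurable_const
      · intro v y
        unfold UO
        rw [abs_of_nonneg (Finset.sum_nonneg fun f _ => by
          split_ifs
          · exact hk.nn f y x
          · exact le_refl _)]
        calc (∑ f : Lb, if f v = em then KO u h f a y x else 0)
            ≤ ∑ f : Lb, KO u h f a y x := by
              refine Finset.sum_le_sum fun f _ => ?_
              split_ifs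
              · exact le_refl _
              · exact hk.nn f y x
          _ = G a (y - x) := hk.sum y x
          _ ≤ _ := G_le ha _
    | succ k ih =>
      exact ⟨fun v => hk.measz ih.1 v, fun v y => hk.bound ih.1 ih.2 v y⟩
  induction k generalizing w z with
  | zero =>
    have : (((0 : ℕ) : ℝ) + 1) * a = a := by simp
    rw [this]
    exact hfirst w z
  | succ k ih =>
    have e1 : (((k + 1 : ℕ) : ℝ) + 1) * a = ((k : ℝ) + 1) * a + a := by
      push_cast
      ring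
    rw [e1]
    have hpos : 0 < ((k : ℝ) + 1) * a := by positivity
    refine (hop _ hpos w z).trans ?_
    exact hk.mono (hms _) (hUO k).1 (hab _ hpos) (hUO k).2 (fun v y => ih v y) w z

end Pool.Agent.XQ.GI.H26
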