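import Pool.Agent.Helper26_XQ.Loa

/-!
Squad XQ, part GI, module LOW: bound of the kernel for the word `0 1 2` from below.
-/

set_option autoImplicit false
set_option linter.unusedSimpArgs false

namespace Pool.Agent.XQ.GI.H26

open MeasureTheory Complex Filter Topology Pool.Agent.H62T Pool.Agent.H60K
open scoped ENNReal NNReal

/-! ### Gaussian kernels -/

lemma G_le_G {s : ℝ} (hs : 0 < s) {z w : ℂ} (h : ‖w‖ ^ 2 ≤ ‖z‖ ^ 2) : G s z ≤ G s w := by
  unfold G
  gcongr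

lemma norm_rfl1 {n : ℂ} (hn : ‖n‖ = 1) (κ : ℝ) (z y : ℂ) :
    ‖z - rfl1 n κ y‖ ^ 2 = ‖z - y‖ ^ 2 + 4 * (κ - ip n z) * (κ - ip n y) := by
  have h := H38KL.norm_rf hn κ z y
  have e : H38KL.rf n κ y = rfl1 n κ y := by
    unfold H38KL.rf rfl1
    push_cast
    ring
  rw [← e, h]

lemma G_joint : Measurable (fun p : ℝ × ℂ => G p.1 p.2) := by
  unfold G
  fun_prop

lemma G_joint' (c : ℂ) : Measurable (fun p : ℝ × ℂ => G p.1 (p.2 - c)) := by
  unfold G
  fun_prop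

lemma ip_meas (n : ℂ) : Measurable (fun y : ℂ => ip n y) := by
  unfold ip
  fun_prop

lemma ip_sub (n z y : ℂ) : ip n (z - y) = ip n z - ip n y := by
  unfold ip
  simp only [Complex.sub_re, Complex.sub_im]
  ring

lemma ip_le_norm {n : ℂ} (hn : ‖n‖ = 1) (z : ℂ) : ip n z ≤ ‖z‖ := by
  have h1 : n.re ^ 2 + n.im ^ 2 = 1 := H38KL.unit_sq hn
  have h2 : ‖z‖ ^ 2 = z.re ^ 2 + z.im ^ 2 := by
    rw [Complex.sq_norm, Complex.normSq_apply]
    ring
  have h3 : (ip n z) ^ 2 ≤ ‖z‖ ^ 2 := by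
    rw [h2]
    unfold ip
    nlinarith only [h1, sq_nonneg (n.re * z.im - n.im * z.re)]
  exact le_of_sq_le_sq' h3 (norm_nonneg z)
where
  le_of_sq_le_sq' {a b : ℝ} (h : a ^ 2 ≤ b ^ 2) (hb : 0 ≤ b) : a ≤ b := by
    exact (le_abs_self a).trans (abs_le_of_sq_le_sq h hb)

/-- tail of the Gaussian measure -/
lemma tail_G {τ ε : ℝ} (hτ : 0 < τ) {z : ℂ} (hz : ε ≤ ‖z‖) (hε : 0 ≤ ε) :
    G τ z ≤ 2 * Real.exp (-(ε ^ 2 / (8 * τ))) * G (2 * τ) z := by
  unfold G
  have h1 : Real.exp (-(‖z‖ ^ 2) / (4 * τ)) = Real.exp (-(‖z‖ ^ 2 / (8 * τ))) *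
      Real.exp (-(‖z‖ ^ 2) / (4 * (2 * τ))) := by
    rw [← Real.exp_add]
    congr 1
    field_simp
    ring
  have h2 : Real.exp (-(‖z‖ ^ 2 / (8 * τ))) ≤ Real.exp (-(ε ^ 2 / (8 * τ))) := by
    rw [Real.exp_le_exp]
    have : ε ^ 2 / (8 * τ) ≤ ‖z‖ ^ 2 / (8 * τ) := by gcongr
    linarith
  rw [h1]
  have h3 : 2 * Real.exp (-(ε ^ 2 / (8 * τ))) *
      (Real.exp (-(‖z‖ ^ 2) / (4 * (2 * τ))) / (4 * Real.pi * (2 * τ)))
      = Real.exp (-(ε ^ 2 / (8 * τ))) * Real.exp (-(‖z‖ ^ 2) / (4 * (2 * τ))) /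
        (4 * Real.pi * τ) := by
    field_simp
  rw [h3]
  gcongr

/-! ### One step -/

/-- a combination of Gaussian kernels -/
noncomputable def ps (c b b' : ℂ) (β β' : ℝ) (s : ℝ) (y : ℂ) : ℝ :=
  G s (y - c) - β * G s (y - b) - β' * G s (y - b')

lemma ps_meas (c b b' : ℂ) (β β' : ℝ) : Measurable (fun p : ℝ × ℂ => ps c b b' β β' p.1 p.2) := by
  unfold ps
  exact ((G_joint' c).sub ((G_joint' b).const_mul β)).sub ((G_joint' b').const_mul β')

lemma ps_le {c b b' : ℂ} {β β' : ℝ} (hβ : 0 ≤ β) (hβ' : 0 ≤ β') {s : ℝ} (hs : 0 < s) (y : ℂ) :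
    ps c b b' β β' s y ≤ G s (y - c) := by
  unfold ps
  have h1 := mul_nonneg hβ (H38KL.G_pos hs (y - b)).le
  have h2 := mul_nonneg hβ' (H38KL.G_pos hs (y - b')).le
  linarith

/-- the truncated combination -/
noncomputable def pt (n : ℂ) (κ : ℝ) (c b b' : ℂ) (β β' : ℝ) (s : ℝ) (y : ℂ) : ℝ :=
  if ip n y < κ then max (ps c b b' β β' s y) 0 else 0

lemma pt_nonneg (n : ℂ) (κ : ℝ) (c b b' : ℂ) (β β' : ℝ) (s : ℝ) (y : ℂ) :
    0 ≤ pt n κ c b b' β β' s y := by
  unfold pt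
  split_ifs
  · exact le_max_right _ _
  · exact le_refl _

lemma pt_le (n : ℂ) (κ : ℝ) (c b b' : ℂ) {β β' : ℝ} (hβ : 0 ≤ β) (hβ' : 0 ≤ β') {s : ℝ}
    (hs : 0 < s) (y : ℂ) : pt n κ c b b' β β' s y ≤ G s (y - c) := by
  unfold pt
  split_ifs
  · exact max_le (ps_le hβ hβ' hs y) (H38KL.G_pos hs _).le
  · exact (H38KL.G_pos hs _).le

lemma pt_meas (n : ℂ) (κ : ℝ) (c b b' : ℂ) (β β' : ℝ) :
    Measurable (fun p : ℝ × ℂ => pt n κ c b b' β β' p.1 p.2) := by
  unfold pt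
  refine Measurable.ite ?_ ((ps_meas c b b' β β').max measurable_const) measurable_const
  exact measurableSet_lt ((ip_meas n).comp measurable_snd) measurable_const

lemma pt_step {n : ℂ} (hn : ‖n‖ = 1) {κ ε : ℝ} (hε : 0 < ε) (c b b' : ℂ) {β β' : ℝ} (hβ : 0 ≤ β)
    (hβ' : 0 ≤ β') {s τ : ℝ} (hs : 0 < s) (hτ : 0 < τ) {z : ℂ} (hz : ip n z < κ) :
    pt n (κ + ε) c b b' β β' (s + τ) z - 1 / s * Real.exp (-((ε / 2) ^ 2 / (4 * τ)))
      ≤ ∫ y, G τ (z - y) * pt n (κ + ε) c b b' β β' s y := by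
  have hI : 0 ≤ ∫ y, G τ (z - y) * pt n (κ + ε) c b b' β β' s y :=
    integral_nonneg fun y => mul_nonneg (H38KL.G_pos hτ _).le (pt_nonneg _ _ _ _ _ _ _ _ _)
  have hE : 0 ≤ 1 / s * Real.exp (-((ε / 2) ^ 2 / (4 * τ))) := by positivity
  have hz' : ip n z < κ + ε := by linarith
  have hpt : pt n (κ + ε) c b b' β β' (s + τ) z = max (ps c b b' β β' (s + τ) z) 0 := by
    unfold pt
    rw [if_pos hz']
  rw [hpt]
  rcases le_total (ps c b b' β β' (s + τ) z) 0 with h0 | h0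
  · rw [max_eq_right h0]
    linarith
  rw [max_eq_left h0]
  -- lower bound of the integrand
  set e : ℝ := 1 / (4 * Real.pi * s) * (2 * Real.exp (-(ε ^ 2 / (8 * τ)))) with he
  have hlow : ∀ y, G τ (z - y) * ps c b b' β β' s y - e * G (2 * τ) (z - y)
      ≤ G τ (z - y) * pt n (κ + ε) c b b' β β' s y := by
    intro y
    have hG := (H38KL.G_pos hτ (z - y)).le
    have hG2 := (H38KL.G_pos (by positivity : 0 < 2 * τ) (z - y)).le
    have he0 : 0 ≤ e := by positivity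
    by_cases hy : ip n y < κ + ε
    · have h1 : ps c b b' β β' s y ≤ pt n (κ + ε) c b b' β β' s y := by
        unfold pt
        rw [if_pos hy]
        exact le_max_left _ _
      have h2 := mul_le_mul_of_nonneg_left h1 hG
      have h3 := mul_nonneg he0 hG2
      linarith
    · have h1 : pt n (κ + ε) c b b' β β' s y = 0 := by
        unfold pt
        rw [if_neg hy]
      rw [h1, mul_zero]
      have hnorm : ε ≤ ‖z - y‖ := by
        have h2 := ip_le_norm hn (y - z)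
        rw [ip_sub, norm_sub_rev] at h2
        linarith [not_lt.mp hy]
      have h3 := tail_G hτ hnorm hε.le
      have h4 : ps c b b' β β' s y ≤ 1 / (4 * Real.pi * s) :=
        (ps_le hβ hβ' hs y).trans (G_le hs _)
      have h5 : G τ (z - y) * ps c b b' β β' s y ≤ G τ (z - y) * (1 / (4 * Real.pi * s)) :=
        mul_le_mul_of_nonneg_left h4 hG
      have h6 : G τ (z - y) * (1 / (4 * Real.pi * s)) ≤
          (2 * Real.exp (-(ε ^ 2 / (8 * τ))) * G (2 * τ) (z - y)) * (1 / (4 * Real.pi * s)) :=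
        mul_le_mul_of_nonneg_right h3 (by positivity)
      rw [he]
      linarith only [h5, h6]
  have hA : ∀ c' : ℂ, Integrable (fun y => G τ (z - y) * G s (y - c')) ∧
      ∫ y, G τ (z - y) * G s (y - c') = G (s + τ) (z - c') := by
    intro c'
    have := H38KL.G_conv_gen hτ hs z c'
    rw [add_comm τ s] at this
    exact this
  have hps : Integrable (fun y => G τ (z - y) * ps c b b' β β' s y) ∧
      ∫ y, G τ (z - y) * ps c b b' β β' s y = ps c b b' β β' (s + τ) z := by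
    have e1 : ∀ y, G τ (z - y) * ps c b b' β β' s y = G τ (z - y) * G s (y - c)
        - β * (G τ (z - y) * G s (y - b)) - β' * (G τ (z - y) * G s (y - b')) := by
      intro y
      unfold ps
      ring
    simp_rw [e1]
    have i1 : Integrable (fun y => G τ (z - y) * G s (y - c)
        - β * (G τ (z - y) * G s (y - b))) := (hA c).1.sub ((hA b).1.const_mul β)
    refine ⟨i1.sub ((hA b').1.const_mul β'), ?_⟩
    rw [integral_sub i1 ((hA b').1.const_mul β'),
      integral_sub (hA c).1 ((hA b).1.const_mul β), integral_const_mul, integral_const_mul,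
      (hA c).2, (hA b).2, (hA b').2]
    rfl
  have hG2i := H38KL.G_intg (by positivity : 0 < 2 * τ) z
  have hpti : Integrable (fun y => G τ (z - y) * pt n (κ + ε) c b b' β β' s y) := by
    refine (hA c).1.mono' ?_ (Eventually.of_forall fun y => ?_)
    · refine (Measurable.mul ?_ ?_).aestronglyMeasurable
      · exact (G_measz τ).comp (measurable_const.sub measurable_id)
      · exact (pt_meas n (κ + ε) c b b' β β').comp (measurable_const.prodMk measurable_id)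
    · rw [Real.norm_eq_abs, abs_of_nonneg
        (mul_nonneg (H38KL.G_pos hτ _).le (pt_nonneg _ _ _ _ _ _ _ _ _))]
      exact mul_le_mul_of_nonneg_left (pt_le _ _ _ _ _ hβ hβ' hs y) (H38KL.G_pos hτ _).le
  have hfin := integral_mono (hps.1.sub (hG2i.const_mul e)) hpti hlow
  rw [integral_sub' hps.1 (hG2i.const_mul e), hps.2, integral_const_mul,
    H38KL.G_int_one (by positivity : 0 < 2 * τ) z, mul_one] at hfin
  have hexp : Real.exp (-(ε ^ 2 / (8 * τ))) ≤ Real.exp (-((ε / 2) ^ 2 / (4 * τ))) := by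
    rw [Real.exp_le_exp]
    have : (ε / 2) ^ 2 / (4 * τ) ≤ ε ^ 2 / (8 * τ) := by
      rw [div_le_div_iff₀ (by positivity) (by positivity)]
      linarith only [sq_nonneg ε, mul_pos hτ (sq_pos_of_pos hε)]
    linarith
  have hee : e ≤ 1 / s * Real.exp (-((ε / 2) ^ 2 / (4 * τ))) := by
    rw [he]
    have hpi := Real.pi_gt_three
    calc 1 / (4 * Real.pi * s) * (2 * Real.exp (-(ε ^ 2 / (8 * τ))))
        = 1 / s * Real.exp (-(ε ^ 2 / (8 * τ))) * (1 / (2 * Real.pi)) := by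
          field_simp
          ring
      _ ≤ 1 / s * Real.exp (-(ε ^ 2 / (8 * τ))) * 1 := by
          gcongr
          rw [div_le_one (by positivity)]
          linarith
      _ ≤ _ := by
          rw [mul_one]
          gcongr
  linarith


/-! ### Words -/

/-- the word `1 2` -/
def w12 : Wd := ⟨[1, 2], by decide⟩

lemma rd_em (c : Finset (Fin 3)) : rd c em = em := by
  revert c
  decide

lemma rd_w2 : ∀ c : Finset (Fin 3), rd c (sg 2) = if 2 ∈ c then em else sg 2 := by decide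

lemma rd_w12 : ∀ c : Finset (Fin 3),
    rd c w12 = if 1 ∈ c then (if 2 ∈ c then em else sg 2) else w12 := by decide

lemma rd_w012 : ∀ c : Finset (Fin 3), rd c w012 = if 0 ∈ c then
    (if 1 ∈ c then (if 2 ∈ c then em else sg 2) else w12) else w012 := by decide

lemma hd_gen (c : Finset (Fin 3)) (l : List (Fin 3)) (s : Fin 3) (l' : List (Fin 3))
    (h : l.dropWhile (fun s => decide (s ∈ c)) = s :: l') : s ∉ c := by
  induction l with
  | nil => simp at h
  | cons a l ih =>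
    by_cases ha : a ∈ c
    · rw [List.dropWhile_cons_of_pos (by simpa using ha)] at h
      exact ih h
    · rw [List.dropWhile_cons_of_neg (by simpa using ha)] at h
      have : a = s := (List.cons.inj h).1
      rwa [← this]

lemma hd2 (w : Wd) (c : Finset (Fin 3)) (h : rd c w = sg 2) : 2 ∉ c :=
  hd_gen c w.1 2 [] (congrArg Subtype.val h)

lemma hd12 (w : Wd) (c : Finset (Fin 3)) (h : rd c w = w12) : 1 ∉ c :=
  hd_gen c w.1 1 [2] (congrArg Subtype.val h)

lemma hd012 (w : Wd) (c : Finset (Fin 3)) (h : rd c w = w012) : 0 ∉ c :=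
  hd_gen c w.1 0 [1, 2] (congrArg Subtype.val h)

lemma mem_lb (u : Fin 3 → ℂ) (h : Fin 3 → ℝ) (x : ℂ) (s : Fin 3) :
    s ∈ lb u h x ↔ h s ≤ ip (u s) x := by
  unfold lb
  simp

/-! ### Reflections -/

lemma Gref {n : ℂ} (hn : ‖n‖ = 1) {κ s : ℝ} (hs : 0 < s) {y c : ℂ} (hy : ip n y ≤ κ)
    (hc : ip n c ≤ κ) : G s (y - rfl1 n κ c) ≤ G s (y - c) := by
  refine G_le_G hs ?_
  rw [norm_rfl1 hn]
  have : 0 ≤ 4 * (κ - ip n y) * (κ - ip n c) := by
    have h1 : 0 ≤ κ - ip n y := by linarith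
    have h2 : 0 ≤ κ - ip n c := by linarith
    positivity
  linarith

lemma Gref' {n : ℂ} (hn : ‖n‖ = 1) {κ s : ℝ} (hs : 0 < s) {y c : ℂ} (hy : κ ≤ ip n y)
    (hc : ip n c ≤ κ) : G s (y - c) ≤ G s (y - rfl1 n κ c) := by
  refine G_le_G hs ?_
  rw [norm_rfl1 hn]
  have : 0 ≤ 4 * (ip n y - κ) * (κ - ip n c) := by
    have h1 : 0 ≤ ip n y - κ := by linarith
    have h2 : 0 ≤ κ - ip n c := by linarith
    positivity
  nlinarith

lemma Gfar {n : ℂ} (hn : ‖n‖ = 1) {κ ε τ : ℝ} (hε : 0 < ε) (hτ : 0 < τ) {z c : ℂ}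
    (hz : ip n z < κ) (hc : ip n c < κ) :
    G τ (z - rfl1 n (κ + ε) c) ≤ 1 / τ * Real.exp (-((ε / 2) ^ 2 / (4 * τ))) := by
  have h1 : (ε / 2) ^ 2 ≤ ‖z - rfl1 n (κ + ε) c‖ ^ 2 := by
    rw [norm_rfl1 hn]
    have h2 : ε ≤ κ + ε - ip n z := by linarith
    have h3 : ε ≤ κ + ε - ip n c := by linarith
    have h4 : ε * ε ≤ (κ + ε - ip n z) * (κ + ε - ip n c) := mul_le_mul h2 h3 hε.le (by linarith)
    nlinarith only [h4, sq_nonneg ‖z - c‖]
  unfold G
  have h2 : Real.exp (-(‖z - rfl1 n (κ + ε) c‖ ^ 2) / (4 * τ))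
      ≤ Real.exp (-((ε / 2) ^ 2 / (4 * τ))) := by
    rw [Real.exp_le_exp, neg_div, neg_le_neg_iff]
    gcongr
  have hpi := Real.pi_gt_three
  calc Real.exp (-(‖z - rfl1 n (κ + ε) c‖ ^ 2) / (4 * τ)) / (4 * Real.pi * τ)
      ≤ Real.exp (-((ε / 2) ^ 2 / (4 * τ))) / (4 * Real.pi * τ) := by gcongr
    _ = (1 / τ * Real.exp (-((ε / 2) ^ 2 / (4 * τ)))) * (1 / (4 * Real.pi)) := by
        field_simp
    _ ≤ (1 / τ * Real.exp (-((ε / 2) ^ 2 / (4 * τ)))) * 1 := by
        gcongr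
        rw [div_le_one (by positivity)]
        linarith
    _ = _ := mul_one _

lemma pt_le' {n : ℂ} {κ : ℝ} {c b b' : ℂ} {β β' s B : ℝ} {y : ℂ} (hB : 0 ≤ B)
    (h : ip n y < κ → ps c b b' β β' s y ≤ B) : pt n κ c b b' β β' s y ≤ B := by
  unfold pt
  split_ifs with h1
  · exact max_le (h h1) hB
  · exact hB

lemma ps_le_pt {n : ℂ} {κ : ℝ} {c b b' : ℂ} {β β' s : ℝ} {y : ℂ} (h : ip n y < κ) :
    ps c b b' β β' s y ≤ pt n κ c b b' β β' s y := by
  unfold pt
  rw [if_pos h]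
  exact le_max_left _ _

/-! ### The test functions -/

/-- images and shift -/
structure Dt where
  x : ℂ
  c2 : ℂ
  c1 : ℂ
  c0 : ℂ
  b1 : ℂ
  b0 : ℂ
  b0' : ℂ
  ε : ℝ

/-- the test functions -/
noncomputable def Psi (u : Fin 3 → ℂ) (h : Fin 3 → ℝ) (d : Dt) (w : Wd) (s : ℝ) (y : ℂ) : ℝ :=
  if w = em then G s (y - d.x)
  else if w = sg 2 then pt (u 2) (h 2 + d.ε) d.c2 0 0 0 0 s y
  else if w = w12 then pt (u 1) (h 1 + d.ε) d.c1 d.b1 0 1 0 s y
  else if w = w012 then pt (u 0) (h 0 + d.ε) d.c0 d.b0 d.b0' 1 1 s y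
  else 0

/-- the conditions on the images -/
structure Ok (u : Fin 3 → ℂ) (h : Fin 3 → ℝ) (n₁ n₂ : ℂ) (k₁ k₂ : ℝ) (d : Dt) : Prop where
  eps : 0 < d.ε
  e2 : d.c2 = rfl1 (u 2) (h 2 + d.ε) d.x
  e1 : d.c1 = rfl1 (u 1) (h 1 + d.ε) d.c2
  e0 : d.c0 = rfl1 (u 0) (h 0 + d.ε) d.c1
  f1 : d.b1 = rfl1 n₂ k₂ d.c2
  f0 : d.b0 = rfl1 n₁ k₁ d.c1
  f0' : d.b0' = rfl1 (u 0) (h 0) d.b1
  i2 : ip (u 2) d.x < h 2
  i1 : ip (u 1) d.c2 < h 1
  i0 : ip (u 0) d.c1 < h 0
  j2 : ip n₂ d.c2 < k₂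
  j1 : ip n₁ d.c1 < k₁
  j0 : ip (u 0) d.b1 < h 0

section Psi

variable {u : Fin 3 → ℂ} {h : Fin 3 → ℝ} {d : Dt}

lemma Psi_em (s : ℝ) (y : ℂ) : Psi u h d em s y = G s (y - d.x) := by
  unfold Psi
  rw [if_pos rfl]

lemma Psi_2 (s : ℝ) (y : ℂ) :
    Psi u h d (sg 2) s y = pt (u 2) (h 2 + d.ε) d.c2 0 0 0 0 s y := by
  unfold Psi
  rw [if_neg (by decide), if_pos rfl]

lemma Psi_12 (s : ℝ) (y : ℂ) :
    Psi u h d w12 s y = pt (u 1) (h 1 + d.ε) d.c1 d.b1 0 1 0 s y := by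
  unfold Psi
  rw [if_neg (by decide), if_neg (by decide), if_pos rfl]

lemma Psi_012 (s : ℝ) (y : ℂ) :
    Psi u h d w012 s y = pt (u 0) (h 0 + d.ε) d.c0 d.b0 d.b0' 1 1 s y := by
  unfold Psi
  rw [if_neg (by decide), if_neg (by decide), if_neg (by decide), if_pos rfl]

lemma Psi_other {w : Wd} (h0 : w ≠ em) (h1 : w ≠ sg 2) (h2 : w ≠ w12) (h3 : w ≠ w012) (s : ℝ)
    (y : ℂ) : Psi u h d w s y = 0 := by
  unfold Psi
  rw [if_neg h0, if_neg h1, if_neg h2, if_neg h3]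

lemma G_le_inv {s : ℝ} (hs : 0 < s) (z : ℂ) : G s z ≤ 1 / s := by
  refine (G_le hs z).trans ?_
  have hpi := Real.pi_gt_three
  gcongr
  nlinarith

lemma Psi_nonneg {s : ℝ} (hs : 0 < s) (w : Wd) (y : ℂ) : 0 ≤ Psi u h d w s y := by
  unfold Psi
  split_ifs
  · exact (H38KL.G_pos hs _).le
  · exact pt_nonneg _ _ _ _ _ _ _ _ _
  · exact pt_nonneg _ _ _ _ _ _ _ _ _
  · exact pt_nonneg _ _ _ _ _ _ _ _ _
  · exact le_refl _

lemma Psi_le {s : ℝ} (hs : 0 < s) (w : Wd) (y : ℂ) : Psi u h d w s y ≤ 1 / s := by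
  unfold Psi
  split_ifs
  · exact G_le_inv hs _
  · exact (pt_le _ _ _ _ _ le_rfl le_rfl hs y).trans (G_le_inv hs _)
  · exact (pt_le _ _ _ _ _ zero_le_one le_rfl hs y).trans (G_le_inv hs _)
  · exact (pt_le _ _ _ _ _ zero_le_one zero_le_one hs y).trans (G_le_inv hs _)
  · positivity

lemma Psi_meas (w : Wd) : Measurable (fun p : ℝ × ℂ => Psi u h d w p.1 p.2) := by
  unfold Psi
  split_ifs
  · exact G_joint' _
  · exact pt_meas _ _ _ _ _ _ _
  · exact pt_meas _ _ _ _ _ _ _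
  · exact pt_meas _ _ _ _ _ _ _
  · exact measurable_const

lemma Psi_measy (s : ℝ) (w : Wd) : Measurable (Psi u h d w s) := by
  have hm : Measurable (fun p : ℝ × ℂ => Psi u h d w p.1 p.2) := Psi_meas w
  have hc : Measurable (fun y : ℂ => ((s, y) : ℝ × ℂ)) := measurable_const.prodMk measurable_id
  have e : Psi u h d w s = (fun p : ℝ × ℂ => Psi u h d w p.1 p.2) ∘ (fun y : ℂ => ((s, y) : ℝ × ℂ)) := by
    funext y
    simp only [Function.comp]
  rw [e]
  exact hm.comp hc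

variable {n₁ n₂ : ℂ} {k₁ k₂ : ℝ}

/-- boundary inequality -/
lemma Psi_bi (hu : ∀ s, ‖u s‖ = 1) (hn₁ : ‖n₁‖ = 1) (hn₂ : ‖n₂‖ = 1)
    (hA : ∀ y, h 0 ≤ ip (u 0) y → h 1 ≤ ip (u 1) y → k₁ ≤ ip n₁ y)
    (hB : ∀ y, h 1 ≤ ip (u 1) y → h 2 ≤ ip (u 2) y → k₂ ≤ ip n₂ y)
    (hd : Ok u h n₁ n₂ k₁ k₂ d) {s : ℝ} (hs : 0 < s) (w : Wd) (y : ℂ) :
    Psi u h d w s y ≤ Psi u h d (rd (lb u h y) w) s y := by
  have hε := hd.eps
  by_cases h0 : w = em
  · rw [h0, rd_em]
  by_cases h1 : w = sg 2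
  · rw [h1, rd_w2]
    split_ifs with m2
    · rw [Psi_2, Psi_em]
      refine pt_le' (H38KL.G_pos hs _).le fun hy => ?_
      refine (ps_le le_rfl le_rfl hs y).trans ?_
      rw [hd.e2]
      exact Gref (hu 2) hs hy.le (by linarith [hd.i2])
    · exact le_refl _
  by_cases h2 : w = w12
  · rw [h2, rd_w12]
    split_ifs with m1 m2
    · rw [Psi_12, Psi_em]
      rw [mem_lb] at m1 m2
      refine pt_le' (H38KL.G_pos hs _).le fun hy => ?_
      have g1 : G s (y - d.c1) ≤ G s (y - d.c2) := by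
        rw [hd.e1]
        exact Gref (hu 1) hs hy.le (by linarith [hd.i1])
      have g2 : G s (y - d.c2) ≤ G s (y - d.b1) := by
        rw [hd.f1]
        exact Gref' hn₂ hs (hB y m1 m2) hd.j2.le
      have g3 := (H38KL.G_pos hs (y - d.x)).le
      unfold ps
      linarith
    · rw [Psi_12, Psi_2]
      rw [mem_lb] at m1 m2
      have hy2 : ip (u 2) y < h 2 + d.ε := by linarith [not_le.mp m2]
      have g0 : G s (y - d.c2) ≤ pt (u 2) (h 2 + d.ε) d.c2 0 0 0 0 s y := by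
        refine le_trans ?_ (ps_le_pt hy2)
        unfold ps
        simp
      refine le_trans ?_ g0
      refine pt_le' (H38KL.G_pos hs _).le fun hy => ?_
      refine (ps_le zero_le_one le_rfl hs y).trans ?_
      rw [hd.e1]
      exact Gref (hu 1) hs hy.le (by linarith [hd.i1])
    · exact le_refl _
  by_cases h3 : w = w012
  · rw [h3, rd_w012]
    by_cases m0 : 0 ∈ lb u h y
    swap
    · rw [if_neg m0]
    rw [if_pos m0]
    rw [mem_lb] at m0
    by_cases m1 : 1 ∈ lb u h y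
    · rw [if_pos m1]
      rw [mem_lb] at m1
      have hz : Psi u h d w012 s y ≤ 0 := by
        rw [Psi_012]
        refine pt_le' le_rfl fun hy => ?_
        have g1 : G s (y - d.c0) ≤ G s (y - d.c1) := by
          rw [hd.e0]
          exact Gref (hu 0) hs hy.le (by linarith [hd.i0])
        have g2 : G s (y - d.c1) ≤ G s (y - d.b0) := by
          rw [hd.f0]
          exact Gref' hn₁ hs (hA y m0 m1) hd.j1.le
        have g3 := (H38KL.G_pos hs (y - d.b0')).le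
        unfold ps
        linarith
      exact hz.trans (Psi_nonneg hs _ _)
    · rw [if_neg m1]
      rw [mem_lb] at m1
      have hy1 : ip (u 1) y < h 1 + d.ε := by linarith [not_le.mp m1]
      rw [Psi_012, Psi_12]
      refine pt_le' (pt_nonneg _ _ _ _ _ _ _ _ _) fun hy => ?_
      refine le_trans ?_ (ps_le_pt hy1)
      have g1 : G s (y - d.c0) ≤ G s (y - d.c1) := by
        rw [hd.e0]
        exact Gref (hu 0) hs hy.le (by linarith [hd.i0])
      have g2 : G s (y - d.b1) ≤ G s (y - d.b0') := by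
        rw [hd.f0']
        exact Gref' (hu 0) hs m0 hd.j0.le
      have g3 := (H38KL.G_pos hs (y - d.b0)).le
      unfold ps
      linarith
  · rw [Psi_other h0 h1 h2 h3]
    exact Psi_nonneg hs _ _

lemma lb_measSet (u : Fin 3 → ℂ) (h : Fin 3 → ℝ) (c : Finset (Fin 3)) :
    MeasurableSet {y : ℂ | lb u h y = c} := by
  have e : {y : ℂ | lb u h y = c} = ⋂ s : Fin 3, {y : ℂ | h s ≤ ip (u s) y ↔ s ∈ c} := by
    ext y
    simp only [Set.mem_ofPred_eq, Set.mem_iInter, Finset.ext_iff, mem_lb]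
  rw [e]
  refine MeasurableSet.iInter fun s => ?_
  by_cases hs : s ∈ c
  · simp only [hs, iff_true]
    exact measurableSet_le measurable_const (ip_meas (u s))
  · simp only [hs, iff_false]
    exact (measurableSet_le measurable_const (ip_meas (u s))).compl

lemma meas_read (u : Fin 3 → ℂ) (h : Fin 3 → ℝ) {φ : Wd → ℂ → ℝ} (hφ : ∀ v, Measurable (φ v))
    (v : Wd) : Measurable (fun y => φ (rd (lb u h y) v) y) := by
  have e : (fun y => φ (rd (lb u h y) v) y) = fun y => ∑ c : Finset (Fin 3),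
      {y : ℂ | lb u h y = c}.indicator (fun y => φ (rd c v) y) y := by
    funext y
    rw [Finset.sum_eq_single (lb u h y)]
    · rw [Set.indicator_of_mem (by simp)]
    · intro c _ hc
      rw [Set.indicator_of_notMem]
      simp only [Set.mem_ofPred_eq]
      exact fun h => hc h.symm
    · intro hh
      exact absurd (Finset.mem_univ _) hh
  rw [e]
  exact Finset.measurable_sum _ fun c _ => (hφ _).indicator (lb_measSet u h c)

/-- LOW for a positive shift -/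
lemma low_eps (hloa : LoaStatement) (hu : ∀ s, ‖u s‖ = 1) (hn₁ : ‖n₁‖ = 1) (hn₂ : ‖n₂‖ = 1)
    (hA : ∀ y, h 0 ≤ ip (u 0) y → h 1 ≤ ip (u 1) y → k₁ ≤ ip n₁ y)
    (hB : ∀ y, h 1 ≤ ip (u 1) y → h 2 ≤ ip (u 2) y → k₂ ≤ ip n₂ y)
    (hd : Ok u h n₁ n₂ k₁ k₂ d) {a : ℝ} (ha : 0 < a) (k : ℕ) (w : Wd) (z : ℂ) :
    Psi u h d w ((k + 1) * a) z ≤ UO u h a k w z d.x := by
  have hε := hd.eps
  refine hloa u h hu d.x (Psi u h d) 1 (d.ε / 2) (by positivity) zero_le_one Psi_meas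
    (fun w s y hs => ⟨Psi_nonneg hs w y, Psi_le hs w y⟩) ?_ ?_ a k w z ha
  · intro w s τ z hs hτ
    have hst : 0 < s + τ := by positivity
    have hbi := Psi_bi hu hn₁ hn₂ hA hB hd hst w z
    refine (sub_le_sub_right hbi _).trans ?_
    set v := rd (lb u h z) w with hv
    have hms : ∀ v, Measurable (Psi u h d v s) := fun v => Psi_measy s v
    have hint : ∀ ψ : ℂ → ℝ, Measurable ψ → (∀ y, |ψ y| ≤ 1 / s) →
        Integrable (fun y => G τ (z - y) * ψ y) := by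
      intro ψ hψ hb
      refine ((H38KL.G_intg hτ z).mul_const (1 / s)).mono' ?_ (Eventually.of_forall fun y => ?_)
      · exact (((G_measz τ).comp (measurable_const.sub measurable_id)).mul hψ).aestronglyMeasurable
      · rw [Real.norm_eq_abs, abs_mul, abs_of_nonneg (H38KL.G_pos hτ _).le]
        exact mul_le_mul_of_nonneg_left (hb y) (H38KL.G_pos hτ _).le
    have habs : ∀ v y, |Psi u h d v s y| ≤ 1 / s := fun v y => by
      rw [abs_of_nonneg (Psi_nonneg hs v y)]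
      exact Psi_le hs v y
    have h2 : ∫ y, G τ (z - y) * Psi u h d v s y
        ≤ ∫ y, G τ (z - y) * Psi u h d (rd (lb u h y) v) s y := by
      refine integral_mono (hint _ (hms v) (habs v))
        (hint _ (meas_read u h hms v) (fun y => habs _ y)) fun y => ?_
      exact mul_le_mul_of_nonneg_left (Psi_bi hu hn₁ hn₂ hA hB hd hs v y) (H38KL.G_pos hτ _).le
    refine le_trans ?_ h2
    have herr : 0 ≤ 1 / s * Real.exp (-((d.ε / 2) ^ 2 / (4 * τ))) := by positivity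
    by_cases h0 : v = em
    · rw [h0]
      simp only [Psi_em]
      have := (H38KL.G_conv_gen hτ hs z d.x).2
      rw [add_comm τ s] at this
      rw [this]
      linarith
    by_cases h1 : v = sg 2
    · have hz := hd2 w (lb u h z) (hv ▸ h1)
      rw [mem_lb, not_le] at hz
      rw [h1]
      simp only [Psi_2]
      exact pt_step (hu 2) hε _ _ _ le_rfl le_rfl hs hτ hz
    by_cases h2' : v = w12
    · have hz := hd12 w (lb u h z) (hv ▸ h2')
      rw [mem_lb, not_le] at hz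
      rw [h2']
      simp only [Psi_12]
      exact pt_step (hu 1) hε _ _ _ zero_le_one le_rfl hs hτ hz
    by_cases h3 : v = w012
    · have hz := hd012 w (lb u h z) (hv ▸ h3)
      rw [mem_lb, not_le] at hz
      rw [h3]
      simp only [Psi_012]
      exact pt_step (hu 0) hε _ _ _ zero_le_one zero_le_one hs hτ hz
    · simp only [Psi_other h0 h1 h2' h3, mul_zero, integral_zero]
      linarith
  · intro w τ z hτ
    have hbi := Psi_bi hu hn₁ hn₂ hA hB hd hτ w z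
    refine (sub_le_sub_right hbi _).trans ?_
    set v := rd (lb u h z) w with hv
    have herr : 0 ≤ 1 / τ * Real.exp (-((d.ε / 2) ^ 2 / (4 * τ))) := by positivity
    have hx2 : 2 ∉ lb u h d.x := by
      rw [mem_lb, not_le]
      exact hd.i2
    have hrhs : 0 ≤ if rd (lb u h d.x) v = em then G τ (z - d.x) else 0 := by
      split_ifs
      · exact (H38KL.G_pos hτ _).le
      · exact le_refl _
    by_cases h0 : v = em
    · rw [h0, rd_em, if_pos rfl, Psi_em]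
      linarith
    refine le_trans ?_ hrhs
    rw [sub_nonpos]
    by_cases h1 : v = sg 2
    · have hz := hd2 w (lb u h z) (hv ▸ h1)
      rw [mem_lb, not_le] at hz
      rw [h1, Psi_2]
      refine (pt_le _ _ _ _ _ le_rfl le_rfl hτ z).trans ?_
      rw [hd.e2]
      exact Gfar (hu 2) hε hτ hz hd.i2
    by_cases h2 : v = w12
    · have hz := hd12 w (lb u h z) (hv ▸ h2)
      rw [mem_lb, not_le] at hz
      rw [h2, Psi_12]
      refine (pt_le _ _ _ _ _ zero_le_one le_rfl hτ z).trans ?_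
      rw [hd.e1]
      exact Gfar (hu 1) hε hτ hz hd.i1
    by_cases h3 : v = w012
    · have hz := hd012 w (lb u h z) (hv ▸ h3)
      rw [mem_lb, not_le] at hz
      rw [h3, Psi_012]
      refine (pt_le _ _ _ _ _ zero_le_one zero_le_one hτ z).trans ?_
      rw [hd.e0]
      exact Gfar (hu 0) hε hτ hz hd.i0
    · rw [Psi_other h0 h1 h2 h3]
      exact herr

end Psi

/-! ### The limit -/

lemma rfl1_cont (n : ℂ) {κ : ℝ → ℝ} {y : ℝ → ℂ} (hκ : Continuous κ) (hy : Continuous y) :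
    Continuous (fun e => rfl1 n (κ e) (y e)) := by
  unfold rfl1 ip
  fun_prop

lemma ip_cont (n : ℂ) {y : ℝ → ℂ} (hy : Continuous y) : Continuous (fun e => ip n (y e)) := by
  unfold ip
  fun_prop

lemma G_cont {T : ℝ} {y : ℝ → ℂ} (hy : Continuous y) : Continuous (fun e => G T (y e)) := by
  unfold G
  fun_prop

/-- LOW -/
theorem low (hloa : LoaStatement) : LowStatement := by
  intro u h hu n₁ n₂ k₁ k₂ a k z x hn₁ hn₂ ha hA hB i2 i1 j2 i0 j1 j0 hz
  set T : ℝ := (k + 1) * a with hT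
  let C2 : ℝ → ℂ := fun e => rfl1 (u 2) (h 2 + e) x
  let C1 : ℝ → ℂ := fun e => rfl1 (u 1) (h 1 + e) (C2 e)
  let C0 : ℝ → ℂ := fun e => rfl1 (u 0) (h 0 + e) (C1 e)
  let B1 : ℝ → ℂ := fun e => rfl1 n₂ k₂ (C2 e)
  let B0 : ℝ → ℂ := fun e => rfl1 n₁ k₁ (C1 e)
  let B0' : ℝ → ℂ := fun e => rfl1 (u 0) (h 0) (B1 e)
  have hC2 : Continuous C2 := rfl1_cont _ (by fun_prop) continuous_const
  have hC1 : Continuous C1 := rfl1_cont _ (by fun_prop) hC2
  have hC0 : Continuous C0 := rfl1_cont _ (by fun_prop) hC1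
  have hB1 : Continuous B1 := rfl1_cont _ continuous_const hC2
  have hB0 : Continuous B0 := rfl1_cont _ continuous_const hC1
  have hB0' : Continuous B0' := rfl1_cont _ continuous_const hB1
  have z2 : C2 0 = rf u h 2 x := by
    show rfl1 (u 2) (h 2 + 0) x = _
    rw [add_zero]
    rfl
  have z1 : C1 0 = rf u h 1 (rf u h 2 x) := by
    show rfl1 (u 1) (h 1 + 0) (C2 0) = _
    rw [add_zero, z2]
    rfl
  have z0 : C0 0 = rf u h 0 (rf u h 1 (rf u h 2 x)) := by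
    show rfl1 (u 0) (h 0 + 0) (C1 0) = _
    rw [add_zero, z1]
    rfl
  have y1 : B1 0 = rfl1 n₂ k₂ (rf u h 2 x) := by
    show rfl1 n₂ k₂ (C2 0) = _
    rw [z2]
  have y0 : B0 0 = rfl1 n₁ k₁ (rf u h 1 (rf u h 2 x)) := by
    show rfl1 n₁ k₁ (C1 0) = _
    rw [z1]
  have y0' : B0' 0 = rf u h 0 (rfl1 n₂ k₂ (rf u h 2 x)) := by
    show rfl1 (u 0) (h 0) (B1 0) = _
    rw [y1]
    rfl
  -- the inequalities hold for small shifts
  have E1 : ∀ᶠ e in 𝓝 (0 : ℝ), ip (u 1) (C2 e) < h 1 :=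
    ((ip_cont (u 1) hC2).tendsto 0).eventually_lt_const (by rw [z2]; exact i1)
  have E2 : ∀ᶠ e in 𝓝 (0 : ℝ), ip n₂ (C2 e) < k₂ :=
    ((ip_cont n₂ hC2).tendsto 0).eventually_lt_const (by rw [z2]; exact j2)
  have E3 : ∀ᶠ e in 𝓝 (0 : ℝ), ip (u 0) (C1 e) < h 0 :=
    ((ip_cont (u 0) hC1).tendsto 0).eventually_lt_const (by rw [z1]; exact i0)
  have E4 : ∀ᶠ e in 𝓝 (0 : ℝ), ip n₁ (C1 e) < k₁ :=
    ((ip_cont n₁ hC1).tendsto 0).eventually_lt_const (by rw [z1]; exact j1)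
  have E5 : ∀ᶠ e in 𝓝 (0 : ℝ), ip (u 0) (B1 e) < h 0 :=
    ((ip_cont (u 0) hB1).tendsto 0).eventually_lt_const (by rw [y1]; exact j0)
  have hlim : Tendsto (fun e : ℝ => G T (z - C0 e) - G T (z - B0 e) - G T (z - B0' e)) (𝓝[>] 0)
      (𝓝 (G T (z - C0 0) - G T (z - B0 0) - G T (z - B0' 0))) := by
    have hc : Continuous (fun e : ℝ => G T (z - C0 e) - G T (z - B0 e) - G T (z - B0' e)) :=
      ((G_cont (continuous_const.sub hC0)).sub (G_cont (continuous_const.sub hB0))).sub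
        (G_cont (continuous_const.sub hB0'))
    exact (hc.tendsto 0).mono_left nhdsWithin_le_nhds
  rw [← z0, ← y0, ← y0']
  refine le_of_tendsto hlim ?_
  have hmem : ∀ᶠ e in 𝓝[>] (0 : ℝ), 0 < e := eventually_mem_nhdsWithin
  filter_upwards [hmem, E1.filter_mono nhdsWithin_le_nhds, E2.filter_mono nhdsWithin_le_nhds,
    E3.filter_mono nhdsWithin_le_nhds, E4.filter_mono nhdsWithin_le_nhds,
    E5.filter_mono nhdsWithin_le_nhds] with e he g1 g2 g3 g4 g5
  have hd : Ok u h n₁ n₂ k₁ k₂ ⟨x, C2 e, C1 e, C0 e, B1 e, B0 e, B0' e, e⟩ :=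
    { eps := he
      e2 := rfl
      e1 := rfl
      e0 := rfl
      f1 := rfl
      f0 := rfl
      f0' := rfl
      i2 := i2
      i1 := g1
      i0 := g3
      j2 := g2
      j1 := g4
      j0 := g5 }
  have hmain := low_eps hloa hu hn₁ hn₂ hA hB hd ha k w012 z
  refine le_trans ?_ hmain
  rw [Psi_012]
  refine le_trans ?_ (ps_le_pt (by show ip (u 0) z < h 0 + e; linarith))
  unfold ps
  simp only [one_mul]
  exact le_refl _

end Pool.Agent.XQ.GI.H26
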